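import Pool.Agent.Y92.ZX.Stm4
import Pool.Agent.Y226.ZM.Pkg

/-!
# Project ZXM: the information at one place
-/

set_option autoImplicit false
set_option linter.unusedSectionVars false

open UpperHalfPlane H294ZP Polynomial

namespace Pool.Agent.Y961.ZX

open Pool.Agent.Y226 Pool.Agent.Y226.ZG Pool.Agent.Y226.ZM Pool.Agent.Y226.ZU Pool.Agent.Y92.ZX

theorem gprod_zpow {G ι : Type*} [CommGroup G] (a : G) (s : Finset ι) (f : ι → ℤ) :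
    ∏ i ∈ s, a ^ f i = a ^ (∑ i ∈ s, f i) := by
  classical
  induction s using Finset.induction_on with
  | empty => simp
  | insert i s hi ih => rw [Finset.prod_insert hi, Finset.sum_insert hi, zpow_add, ih]

/-- **PK.** -/
theorem pk (h1 : S_LMIX) (h2 : S_LEV) (h3 : S_MULB) (h4 : S_CORE) : S_PK := by
  classical
  intro C _ _ _ _ _ p hpf k 𝕜 _ _ _ _ n N W M d D B 𝓛 OnV hPt lam nu val hlam hnu Γ hΓ
  have hp0 := 𝓛.hp0
  have hp1 := 𝓛.hp1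
  have hWM : W ≤ M := by
    have := 𝓛.hM
    have h2 : 0 ≤ W * N := Nat.zero_le _
    omega
  have hBM : ∀ b : Fin n → ℤ, Bv W b → Bv M b := fun b hb i =>
    (hb i).trans (by exact_mod_cast hWM)
  have hX : ∀ P : Fin n → QA, ∀ i, 𝓛.φ (lam i * P i) = 𝓛.Λ i * 𝓛.φ (P i) := fun P i => by
    rw [map_mul, hlam]
  -- the constants
  choose u hu huG using hnu
  have hun : ∀ i, ‖((u i : Cˣ) : C)‖ = ‖(p : C)‖ ^ val i := by
    intro i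
    have h5 := GG_norm (huG i)
    rw [Units.val_mul, Units.val_zpow_eq_zpow_val, norm_mul, norm_zpow, 𝓛.hpu, zpow_neg] at h5
    have h6 : ‖(p : C)‖ ^ val i ≠ 0 := zpow_ne_zero _ hp0.ne'
    exact (mul_inv_eq_one₀ h6).mp h5
  have hκnorm : ∀ b : Fin n → ℤ, ‖((∏ i, u i ^ b i : Cˣ) : C)‖ =
      ‖(p : C)‖ ^ (∑ i, b i * val i) := by
    intro b
    rw [Units.coe_prod, norm_prod, ← prod_zpow' hp0.ne']
    refine Finset.prod_congr rfl fun i _ => ?_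
    rw [Units.val_zpow_eq_zpow_val, norm_zpow, hun, ← zpow_mul, mul_comm]
  have hκGG : ∀ b : Fin n → ℤ, ∑ i, b i * val i = 0 →
      ∏ i, u i ^ b i ∈ GG C p 0 le_rfl one_pos := by
    intro b hb
    have h6 : ∏ i, (𝓛.pu ^ (-val i)) ^ b i = 1 := by
      have h7 : ∀ i, (𝓛.pu ^ (-val i)) ^ b i = 𝓛.pu ^ (-(b i * val i)) := by
        intro i
        rw [← zpow_mul]
        congr 1
        ring
      rw [Finset.prod_congr rfl fun i _ => h7 i, gprod_zpow, Finset.sum_neg_distrib, hb, neg_zero,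
        zpow_zero]
    have h5 : ∏ i, u i ^ b i = ∏ i, (u i * 𝓛.pu ^ (-val i)) ^ b i := by
      rw [Finset.prod_congr rfl fun i _ => mul_zpow (u i) (𝓛.pu ^ (-val i)) (b i),
        Finset.prod_mul_distrib, h6, mul_one]
    rw [h5]
    exact prod_mem fun i _ => zpow_mem (huG i) _
  -- the bounds
  obtain ⟨G₁, hG₁⟩ := h2 C p k 𝕜 n N W M d D B 𝓛
  have h5 : ∀ b : Fin n → ℤ, ∃ G : ℕ, ∑ i, b i * val i = 0 → ∀ (x : Fin n → C),
      𝓛.Pt x → (∃ a, ‖x a‖ ≠ 1) → (∀ i, b i ≠ 0 → ‖x i‖ = 1) → ∀ (ζ : C) (o : ℕ), 0 < o →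
      IsPrimitiveRoot ζ o → ((∏ i, u i ^ b i : Cˣ) : C) * ∏ i, x i ^ b i = ζ →
      ∃ o' s : ℕ, 0 < o' ∧ o' ≤ G ∧ o'.Coprime p ∧ o = o' * p ^ s := by
    intro b
    by_cases hb : ∑ i, b i * val i = 0
    · obtain ⟨G, hG⟩ := h3 C p k 𝕜 n N W M d D B 𝓛 (∏ i, u i ^ b i) (GG_norm (hκGG b hb)) b
      exact ⟨G, fun _ => hG⟩
    · exact ⟨0, fun h => absurd h hb⟩
  choose G₂ hG₂ using h5
  have h6 : ∀ b : Fin n → ℤ, ∃ G : ℕ, Bv W b → b ≠ 0 → ∑ i, b i * val i = 0 →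
      ∀ (X : Fin n → QA) (x : Fin n → C),
      𝓛.Pt x → (∀ i, 𝓛.φ (X i) = 𝓛.Λ i * x i) → (∀ i, ‖x i‖ = 1) →
      ∀ j l : Fin n, j ≠ l → b j = 0 → b l = 0 → ∀ (τ w : ℍ) (a b' c d' : ℤ), 0 < a * d' - b' * c →
      (w : ℂ) * (c * τ + d') = a * τ + b' → rA (X j) = jj τ → rA (X l) = jj w →
      ∀ (ζ : C) (o : ℕ), 0 < o → IsPrimitiveRoot ζ o →
      ((∏ i, u i ^ b i : Cˣ) : C) * ∏ i, x i ^ b i = ζ →
      ∃ N' : ℕ, 0 < N' ∧ N' ≤ G ∧ PsiE ιZ (mP N') (mD N') (rA (X j)) (rA (X l)) = 0 := by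
    intro b
    by_cases hb : Bv W b ∧ b ≠ 0 ∧ ∑ i, b i * val i = 0
    · obtain ⟨G, hG⟩ := h1 C p k 𝕜 n N W M d D B 𝓛 b (hBM b hb.1) hb.2.1 _ (hκGG b hb.2.2)
      exact ⟨G, fun _ _ _ => hG⟩
    · exact ⟨0, fun h1 h2 h3 => absurd ⟨h1, h2, h3⟩ hb⟩
  choose G₃ hG₃ using h6
  obtain ⟨G₄, hG₄⟩ := h4 C p k 𝕜 n N W M d D B 𝓛
  set F := (finite_Bv1 n W).toFinset with hF
  have hFm : ∀ b, Bv W b → b ∈ F := fun b hb => (finite_Bv1 n W).mem_toFinset.2 hb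
  have hG₂F : ∀ b, Bv W b → G₂ b ≤ ∑ b ∈ F, G₂ b := fun b hb =>
    Finset.single_le_sum (f := G₂) (fun _ _ => Nat.zero_le _) (hFm b hb)
  have hG₃F : ∀ b, Bv W b → G₃ b ≤ ∑ b ∈ F, G₃ b := fun b hb =>
    Finset.single_le_sum (f := G₃) (fun _ _ => Nat.zero_le _) (hFm b hb)
  have hmon : ∀ (P : Fin n → QA) (b : Fin n → ℤ), 𝓛.φ (∏ i, (nu i * P i) ^ b i) =
      ((∏ i, u i ^ b i : Cˣ) : C) * ∏ i, 𝓛.φ (P i) ^ b i := by
    intro P b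
    rw [map_prod, Units.coe_prod, ← Finset.prod_mul_distrib]
    refine Finset.prod_congr rfl fun i _ => ?_
    rw [map_zpow₀, map_mul, ← hu, mul_zpow, Units.val_zpow_eq_zpow_val]
  have hint : ∀ (P : Fin n → QA) (i : Fin n),
      IsIntegral (Algebra.adjoin ℤ Γ) (rA (lam i * P i)) → ‖𝓛.φ (lam i * P i)‖ ≤ 1 :=
    fun P i hi => norm_le_one_of_adjoin 𝓛.φ hΓ hi
  refine ⟨⟨fun P i => ‖𝓛.φ (P i)‖ ≠ 1, G₁ + ∑ b ∈ F, G₂ b + ∑ b ∈ F, G₃ b + G₄, ?_, ?_, ?_, ?_,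
    ?_, ?_, ?_⟩⟩
  · intro P hP i j hi hj
    by_contra hij
    rcases (hPt P hP).ob i j hij with h | h
    · exact hi h
    · exact hj h
  · intro P hP b hb o ho hroot
    have h7 := congrArg 𝓛.φ hroot
    rw [map_pow, map_one, hmon] at h7
    have h8 := Loc.root_norm ho h7
    rw [norm_mul, hκnorm, Loc.mon_norm (fun i hi => not_not.1 (hb i hi)), mul_one] at h8
    by_contra hne
    refine hne (zpow_right_injective₀ hp0 hp1.ne ?_)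
    show ‖(p : C)‖ ^ (∑ i, b i * val i) = ‖(p : C)‖ ^ (0 : ℤ)
    rw [h8, zpow_zero]
  · intro P hP i hi hgood
    have h7 := 𝓛.X_gt' (i := i) (x := 𝓛.φ (P i)) (X := 𝓛.φ (lam i * P i)) (hX P i) hgood
    exact absurd (hint P i hi) (not_le.2 h7)
  · intro P hP j l hj hl τ w' hjτ hlw N₀ hN₀ hΨ hmin
    obtain ⟨A, B, g', s, e1, e2, e3, e4, e5, e6, e7, e8⟩ := hG₁
      (fun i => lam i * P i) (fun i => 𝓛.φ (P i)) (hPt P hP) (hX P) j l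
      (not_not.1 hj) (not_not.1 hl) τ w' hjτ hlw N₀ hN₀ hΨ hmin
    exact ⟨A, B, g', s, e1, e2, e3, e4, e5, e6, e7, fun ha => (e8 ha).trans (by omega)⟩
  · intro P hP b hbW hb ha hsupp ρ o ho hρ hrel
    have h7 := congrArg 𝓛.φ hrel
    rw [hmon] at h7
    obtain ⟨o', s, e2, e3, e4, e5⟩ := hG₂ b hb (fun i => 𝓛.φ (P i)) (hPt P hP) ha
      (fun i hi => not_not.1 (hsupp i hi)) (𝓛.φ ρ) o ho (hρ.map_of_injective 𝓛.φ.injective) h7
    have e6 := hG₂F b hbW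
    exact ⟨o', s, e2, by omega, e4, e5⟩
  · intro P hP b hbW hb0 hb hall j l hjl hbj hbl τ w' a b' c d' hdet hww hjτ hlw ρ o ho hρ hrel
    have h7 := congrArg 𝓛.φ hrel
    rw [hmon] at h7
    obtain ⟨N', e2, e3, e4⟩ := hG₃ b hbW hb0 hb (fun i => lam i * P i)
      (fun i => 𝓛.φ (P i)) (hPt P hP) (hX P) (fun i => not_not.1 (hall i)) j l hjl hbj hbl τ w'
      a b' c d' hdet hww hjτ hlw (𝓛.φ ρ) o ho (hρ.map_of_injective 𝓛.φ.injective) h7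
    have e6 := hG₃F b hbW
    refine ⟨N', e2, by omega, ?_⟩
    rw [← hjτ, ← hlw]
    exact e4
  · intro P hP r cls hr hnone hsome
    obtain ⟨j, l, hjl, N', e1, e2, e3⟩ := hG₄ (fun i => lam i * P i) (fun i => 𝓛.φ (P i))
      (hPt P hP) (hX P) r cls hr (fun i hi => hint P i (hnone i hi)) hsome
    exact ⟨j, l, hjl, N', e1, by omega, e3⟩

end Pool.Agent.Y961.ZX
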